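import Pool.Agent.Spo.Leaf

/-!
# Curves carried by the outer billiard maps of two self-polar bodies (MP_15a957_gt)
-/

set_option autoImplicit false

open Set

namespace Pool.Agent.Results.MP_15a957_gt.CommonCurves

open Pool.Agent.Spo

theorem result (n : ℕ) (X₁ X₂ : Set (V n)) (h₁ : SelfPolar X₁) (h₂ : SelfPolar X₂) (c₁ : C1 X₁)
    (c₂ : C1 X₂) :
    (∀ (γ : ℝ → V n) (τ : ℝ → ℝ), Positive γ → CarriesBy X₁ γ τ → ∀ s s',
      ∫ t in s..τ s, om (γ t) (deriv γ t) = ∫ t in s'..τ s', om (γ t) (deriv γ t)) ∧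
    (∀ (γ : ℝ → V n) (τ₁ τ₂ : ℝ → ℝ), Positive γ → CarriesBy X₁ γ τ₁ → CarriesBy X₂ γ τ₂ →
      ∀ s, γ (τ₁ s) = γ (τ₂ s)) ∧
    (YSet X₁ ⊆ closure {z | ∃ γ τ₁ τ₂, Positive γ ∧ CarriesBy X₁ γ τ₁ ∧ CarriesBy X₂ γ τ₂ ∧
      z ∈ range γ} → X₁ = X₂) := by
  refine ⟨fun γ τ hγ hτ s s' => ?_, fun _ _ _ hγ k1 k2 s => leaf_agree h₁ h₂ c₂ hγ k1 k2 s,
    part_leaf h₁ h₂ c₁ c₂⟩
  have hi : ∀ a b, IntervalIntegrable (fun t => om (γ t) (deriv γ t)) MeasureTheory.volume a b :=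
    fun a b => (act_cont hγ.1).intervalIntegrable a b
  have key : ∀ s, ∫ t in s..τ s, om (γ t) (deriv γ t) = act γ (τ s) - act γ s := fun s =>
    (intervalIntegral.integral_interval_sub_left (hi 0 (τ s)) (hi 0 s)).symm
  rw [key, key]
  exact act_const h₁ hγ.1 hτ s s'

end Pool.Agent.Results.MP_15a957_gt.CommonCurves
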