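import Pool.Agent.Spo.Com

/-!
# Two self-polar bodies whose outer billiard maps commute (MP_15a957_gt)
-/

set_option autoImplicit false

open Set

namespace Pool.Agent.Results.MP_15a957_gt.CommutingMaps

open Pool.Agent.Spo

theorem result (n : ℕ) (X₁ X₂ : Set (V n)) (h₁ : SelfPolar X₁) (h₂ : SelfPolar X₂)
    (c₂ : C1 X₂) :
    (∀ z u v s, Step X₁ z u → Step X₂ u s → Step X₂ z v → Step X₁ v s → u = v) ∧
    (C1 X₁ → YSet X₁ ⊆ closure {z | ∃ u v s, Step X₁ z u ∧ Step X₂ u s ∧ Step X₂ z v ∧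
      Step X₁ v s} → X₁ = X₂) ∧
    (YSet X₁ = YSet X₂ →
      (∀ z z₁ z₁₂ z₂ z₂₁, Step X₁ z z₁ → Step X₂ z₁ z₁₂ → Step X₂ z z₂ → Step X₁ z₂ z₂₁ →
        z₁₂ = z₂₁) → X₁ = X₂) :=
  ⟨fun _ _ _ _ s1 s4 s2 s3 => local_comm h₁ h₂ c₂ s1 s4 s2 s3,
    fun c₁ hd => part_dense h₁ h₂ c₁ c₂ hd, part_three h₁ h₂ c₂⟩

end Pool.Agent.Results.MP_15a957_gt.CommutingMaps
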