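import Pool.Agent.Spo.Ell

/-!
# A symplectically self-polar body whose set `Y` is, or is near, an ellipsoid (MP_15a957_gt)
-/

set_option autoImplicit false

open Set

namespace Pool.Agent.Results.MP_15a957_gt.EllipsoidStability

open Pool.Agent.Spo

theorem result (n : ℕ) (hn : 1 ≤ n) (A : V n ≃ₗ[ℝ] V n) (X : Set (V n)) (hX : SelfPolar X) :
    (SelfPolar (A '' ball n) →
      (∀ m : ℝ, (∀ z ∈ YSet X, sq A z ≤ 2 * m) → 1 ≤ m ∧ (∀ x ∈ X, sq A x ≤ m + √(m ^ 2 - 1)) ∧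
        ∀ x, sq A x * (m + √(m ^ 2 - 1)) ≤ 1 → x ∈ X) ∧
      (YSet X = YSet (A '' ball n) → X = A '' ball n)) ∧
    ((∀ z ∈ YSet X, sq A z = 2) → X = A '' ball n) ∧
    ∀ X' : Set (V n), SelfPolar X' → ∀ m : ℝ,
      (∀ z ∈ YSet X, ∀ w ∈ YSet X', om z w ≤ 2 * m) → 1 ≤ m ∧
        (∀ x ∈ X, (m + √(m ^ 2 - 1))⁻¹ • x ∈ X') ∧ ∀ x ∈ X', (m + √(m ^ 2 - 1))⁻¹ • x ∈ X := by
  refine ⟨fun hE => ⟨fun m hm => part_one hn hE hX hm, fun hY => ?_⟩,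
    fun h => ell_of_Y hn hX h, fun X' hX' m hm => two_bodies' hn hX hX' hm⟩
  have hm : ∀ z ∈ YSet X, sq A z ≤ 2 * 1 := fun z hz => ell_Y hE z (hY ▸ hz)
  obtain ⟨-, hu, hl⟩ := part_one hn hE hX hm
  have e : (1 : ℝ) + √(1 ^ 2 - 1) = 1 := by norm_num
  rw [e] at hu hl
  ext x
  rw [mem_ell]
  exact ⟨fun h => hu x h, fun h => hl x (by linarith)⟩

end Pool.Agent.Results.MP_15a957_gt.EllipsoidStability
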